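import Pool.Agent.W_MP_c6f870_an.Prop

open scoped InnerProductSpace ENNReal Matrix ComplexOrder

namespace Pool.Agent.Results.MP_c6f870_an.QuadraticPropagation

section Hyponormal

variable {H : Type*} [NormedAddCommGroup H] [InnerProductSpace ℂ H] [CompleteSpace H]

/-- `T` is hyponormal: the self-commutator `T* T - T T*` is positive. -/
def IsHyponormal (T : H →L[ℂ] H) : Prop :=
  (star T * T - T * star T).IsPositive

/-- `T + l T²` is hyponormal for all complex `l`. -/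
def QuadraticallyHyponormal (T : H →L[ℂ] H) : Prop :=
  ∀ l : ℂ, IsHyponormal (T + l • T ^ 2)

/-- `T + l T² + m T³` is hyponormal for all complex `l`, `m`. -/
def CubicallyHyponormal (T : H →L[ℂ] H) : Prop :=
  ∀ l m : ℂ, IsHyponormal (T + l • T ^ 2 + m • T ^ 3)

end Hyponormal

/-- The Hilbert space `ℓ²(ℂ^p)`. -/
abbrev SeqSpace (p : ℕ) : Type := lp (fun _ : ℕ => EuclideanSpace ℂ (Fin p)) 2

/-- `T` is the map `(x₀, x₁, ...) ↦ (0, A₀ x₀, A₁ x₁, ...)`. -/
def IsMatrixShift {p : ℕ} (A : ℕ → Matrix (Fin p) (Fin p) ℂ) (T : SeqSpace p → SeqSpace p) :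
    Prop :=
  ∀ x : SeqSpace p, (T x) 0 = 0 ∧ ∀ n : ℕ, (T x) (n + 1) = WithLp.toLp 2 (A n *ᵥ (x n).ofLp)

/-- Local propagation, in both directions, for quadratically (in particular cubically)
hyponormal matrix-valued weighted shifts. -/
theorem result :
    (∀ (H : Type) [NormedAddCommGroup H] [InnerProductSpace ℂ H] [CompleteSpace H]
      (T : H →L[ℂ] H), CubicallyHyponormal T → QuadraticallyHyponormal T) ∧
    (∀ (p : ℕ) (A : ℕ → Matrix (Fin p) (Fin p) ℂ), (∀ n, (A n).PosDef) →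
      ∀ T : SeqSpace p →L[ℂ] SeqSpace p, IsMatrixShift A T → QuadraticallyHyponormal T →
        ∀ (x : Fin p → ℂ) (k : ℕ), 1 ≤ k → A k *ᵥ x = A (k + 1) *ᵥ x →
          ∀ n, 1 ≤ n → A n *ᵥ x = A 1 *ᵥ x) := by
  refine ⟨fun H _ _ _ T h l => ?_, ?_⟩
  · have := h l 0
    rwa [zero_smul, add_zero] at this
  · intro p A hpos T hT hquad x k hk hx n hn
    have hshift : Pool.Agent.W_MP_c6f870_an.IsShift
        (fun n => Matrix.toEuclideanCLM (n := Fin p) (𝕜 := ℂ) (A n)) T :=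
      ⟨fun x => (hT x).1, fun x n => (hT x).2 n⟩
    have hsym : ∀ n, ∀ v w : EuclideanSpace ℂ (Fin p),
        ⟪Matrix.toEuclideanCLM (n := Fin p) (𝕜 := ℂ) (A n) v, w⟫_ℂ =
          ⟪v, Matrix.toEuclideanCLM (n := Fin p) (𝕜 := ℂ) (A n) w⟫_ℂ := by
      intro n v w
      have h1 : (Matrix.toEuclideanLin (A n)).IsPositive :=
        Matrix.isPositive_toEuclideanLin_iff.mpr (hpos n).posSemidef
      exact h1.isSymmetric v w
    have hnn : ∀ n, ∀ v : EuclideanSpace ℂ (Fin p),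
        0 ≤ (⟪Matrix.toEuclideanCLM (n := Fin p) (𝕜 := ℂ) (A n) v, v⟫_ℂ).re := by
      intro n v
      have h1 : (Matrix.toEuclideanLin (A n)).IsPositive :=
        Matrix.isPositive_toEuclideanLin_iff.mpr (hpos n).posSemidef
      exact h1.re_inner_nonneg_left v
    have hbij : ∀ n, Function.Bijective (Matrix.toEuclideanCLM (n := Fin p) (𝕜 := ℂ) (A n)) := by
      intro n
      have hu : IsUnit (Matrix.toEuclideanCLM (n := Fin p) (𝕜 := ℂ) (A n)) :=
        (hpos n).isUnit.map (Matrix.toEuclideanCLM (n := Fin p) (𝕜 := ℂ))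
      obtain ⟨u, hu⟩ := hu
      rw [← hu]
      have h3 : ∀ c, (u⁻¹).val (u.val c) = c := fun c =>
        congrArg (fun f : EuclideanSpace ℂ (Fin p) →L[ℂ] EuclideanSpace ℂ (Fin p) => f c) u.inv_mul
      have h4 : ∀ c, u.val ((u⁻¹).val c) = c := fun c =>
        congrArg (fun f : EuclideanSpace ℂ (Fin p) →L[ℂ] EuclideanSpace ℂ (Fin p) => f c) u.mul_inv
      exact Function.bijective_iff_has_inverse.mpr ⟨(u⁻¹).val, h3, h4⟩
    have hyp : ∀ s : ℝ, ∀ x : SeqSpace p,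
        ‖(star (T + (s : ℂ) • T ^ 2)) x‖ ^ 2 ≤ ‖(T + (s : ℂ) • T ^ 2) x‖ ^ 2 := fun s x =>
      Pool.Agent.W_MP_c6f870_an.norm_adjoint_le _ (hquad s) x
    have key := Pool.Agent.W_MP_c6f870_an.propagate_all hshift hsym hnn hbij hyp k hk
      (WithLp.toLp 2 x) (by
        show WithLp.toLp 2 (A k *ᵥ x) = WithLp.toLp 2 (A (k + 1) *ᵥ x)
        rw [hx]) n hn
    exact (WithLp.toLp_injective 2) key

end Pool.Agent.Results.MP_c6f870_an.QuadraticPropagation
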